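import Pool.Agent.Helper31.GP.G2b
import Pool.Agent.Helper31.GP.G2c

/-!
# Block GP-DE: increments of the functionals
-/

open Finset
open scoped Classical

namespace GPG

noncomputable section

theorem DE_perm1 (n a b c : ℕ) : det3 n a c b = - det3 n a b c := by unfold det3; ring

theorem DE_perm2 (n a b c : ℕ) : det3 n b a c = - det3 n a b c := by unfold det3; ring

theorem DE_perm3 (n a b c : ℕ) : det3 n b c a = det3 n a b c := by unfold det3; ring

theorem DE_perm4 (n a b c : ℕ) : det3 n c a b = det3 n a b c := by unfold det3; ring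

theorem DE_perm5 (n a b c : ℕ) : det3 n c b a = - det3 n a b c := by unfold det3; ring

/-- a set of pairs on lines through `w`, weights at most `A`: the increment is at most `A` times
the number of pairs with a point in `C`. -/
theorem DE_delta_aux (n w : ℕ) (hw : w < n ^ 2) (Q : Finset (ℕ × ℕ)) (c : ℕ × ℕ → ℝ) (A : ℝ)
    (hA : 0 ≤ A) (hQ : ∀ q ∈ Q, q.1 < n ^ 2 ∧ q.2 < n ^ 2 ∧ q.1 ≠ w ∧ q.2 ≠ w ∧
      det3 n w q.1 q.2 = 0) (hc0 : ∀ q ∈ Q, c q ≤ A) (V C : Finset ℕ)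
    (hC : C ⊆ V) (hCn : C ⊆ range (n ^ 2)) (hN : NoThree n C) :
    XX Q c V - XX Q c (V \ C) ≤ A * (160 * (n : ℝ) * Real.sqrt n) := by
  have hn : 1 ≤ n := by
    rcases Nat.eq_zero_or_pos n with h | h
    · subst h; simp at hw
    · exact h
  -- the pairs with a point in `C`
  set P := Q.filter (fun q => q.1 ∈ V ∧ q.2 ∈ V) with hP
  set P' := Q.filter (fun q => q.1 ∈ V \ C ∧ q.2 ∈ V \ C) with hP'
  have hsub : P' ⊆ P := by
    intro q hq
    rw [hP', mem_filter] at hq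
    rw [hP, mem_filter]
    exact ⟨hq.1, (mem_sdiff.1 hq.2.1).1, (mem_sdiff.1 hq.2.2).1⟩
  have h1 : XX Q c V - XX Q c (V \ C) = ∑ q ∈ P \ P', c q := by
    unfold XX
    rw [← hP, ← hP', ← sum_sdiff hsub]
    ring
  rw [h1]
  have h2 : ∑ q ∈ P \ P', c q ≤ ((P \ P').card : ℝ) * A := by
    rw [← nsmul_eq_mul]
    apply sum_le_card_nsmul
    intro q hq
    rw [mem_sdiff, hP, mem_filter] at hq
    exact hc0 q hq.1.1
  -- the pairs are counted by a point `u` of `C` and a point of the line `w u`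
  have h3 : P \ P' ⊆ (C.filter (fun z => z ≠ w)).biUnion (fun u =>
      ((gline n w u).image (fun z => (u, z))) ∪ ((gline n w u).image (fun z => (z, u)))) := by
    intro q hq
    rw [mem_sdiff, hP, mem_filter, hP', mem_filter] at hq
    obtain ⟨⟨hqQ, hq1, hq2⟩, hq3⟩ := hq
    obtain ⟨k1, k2, k3, k4, k5⟩ := hQ q hqQ
    have h4 : q.1 ∈ C ∨ q.2 ∈ C := by
      by_contra h
      push Not at h
      exact hq3 ⟨hqQ, mem_sdiff.2 ⟨hq1, h.1⟩, mem_sdiff.2 ⟨hq2, h.2⟩⟩
    rw [mem_biUnion]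
    rcases h4 with h4 | h4
    · refine ⟨q.1, mem_filter.2 ⟨h4, k3⟩, mem_union_left _ (mem_image.2 ⟨q.2, ?_, rfl⟩)⟩
      exact mem_gline.2 ⟨k2, k5⟩
    · refine ⟨q.2, mem_filter.2 ⟨h4, k4⟩, mem_union_right _ (mem_image.2 ⟨q.1, ?_, rfl⟩)⟩
      exact mem_gline.2 ⟨k1, by rw [DE_perm1, k5, neg_zero]⟩
  have h4 : ((P \ P').card : ℝ) ≤ ∑ u ∈ C.filter (fun z => z ≠ w),
      2 * ((gline n w u).card : ℝ) := by
    have h5 : (P \ P').card ≤ ∑ u ∈ C.filter (fun z => z ≠ w), 2 * (gline n w u).card := by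
      refine (card_le_card h3).trans (card_biUnion_le.trans ?_)
      apply sum_le_sum
      intro u _
      refine (card_union_le _ _).trans ?_
      have e1 := card_image_le (s := gline n w u) (f := fun z => (u, z))
      have e2 := card_image_le (s := gline n w u) (f := fun z => (z, u))
      omega
    exact_mod_cast h5
  have h5 : ∑ u ∈ C.filter (fun z => z ≠ w), 2 * ((gline n w u).card : ℝ) ≤
      ∑ u ∈ C.filter (fun z => z ≠ w), 4 * n * ((1 : ℝ) / pd n w u) := by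
    apply sum_le_sum
    intro u hu
    rw [mem_filter] at hu
    have := card_gline n w u (Ne.symm hu.2) hw (mem_range.1 (hCn hu.1))
    calc 2 * ((gline n w u).card : ℝ) ≤ 2 * (2 * n / pd n w u) := by linarith
      _ = 4 * n * ((1 : ℝ) / pd n w u) := by ring
  have h5' : ∑ u ∈ C.filter (fun z => z ≠ w), 4 * n * ((1 : ℝ) / pd n w u) =
      4 * n * ∑ u ∈ C.filter (fun z => z ≠ w), ((1 : ℝ) / pd n w u) := by rw [mul_sum]
  rw [h5'] at h5
  have h6 := sum_inv_pd_noThree n w hn hw C hCn hN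
  have hn0 : (0 : ℝ) ≤ n := Nat.cast_nonneg n
  have h7 : ((P \ P').card : ℝ) ≤ 160 * (n : ℝ) * Real.sqrt n := by
    calc ((P \ P').card : ℝ) ≤ _ := h4
      _ ≤ _ := h5
      _ ≤ 4 * n * (40 * Real.sqrt n) := mul_le_mul_of_nonneg_left h6 (by positivity)
      _ = 160 * (n : ℝ) * Real.sqrt n := by ring
  calc ∑ q ∈ P \ P', c q ≤ ((P \ P').card : ℝ) * A := h2
    _ ≤ (160 * (n : ℝ) * Real.sqrt n) * A := mul_le_mul_of_nonneg_right h7 hA
    _ = A * (160 * (n : ℝ) * Real.sqrt n) := by ring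

theorem delta_up (n M w : ℕ) (hw : w < n ^ 2) (V C : Finset ℕ) (hV : V ⊆ range (n ^ 2))
    (hC : C ⊆ V) (hN : NoThree n C) :
    XX (Qup n M w) (fun p => rho n p.1 * rho n p.2) V -
      XX (Qup n M w) (fun p => rho n p.1 * rho n p.2) (V \ C) ≤ 1000 * (n : ℝ) * Real.sqrt n := by
  have h := DE_delta_aux n w hw (Qup n M w) (fun p => rho n p.1 * rho n p.2) 4 (by norm_num)
    ?_ ?_ V C hC (hC.trans hV) hN
  · refine h.trans ?_
    have h1 : (0 : ℝ) ≤ (n : ℝ) * Real.sqrt n := by positivity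
    nlinarith
  · intro q hq
    unfold Qup at hq
    rw [mem_filter, mem_product, mem_range, mem_range] at hq
    obtain ⟨⟨h1, h2⟩, h3, h4, h5⟩ := hq
    exact ⟨by omega, by omega, by omega, by omega, h4⟩
  · intro q hq
    unfold Qup at hq
    rw [mem_filter, mem_product, mem_range, mem_range] at hq
    obtain ⟨⟨h1, h2⟩, h3, h4, h5⟩ := hq
    have e1 := rho_bounds n q.1 (by omega)
    have e2 := rho_bounds n q.2 (by omega)
    nlinarith [e1.1, e1.2, e2.1, e2.2]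

theorem delta_full (n w : ℕ) (hw : w < n ^ 2) (V C : Finset ℕ) (hV : V ⊆ range (n ^ 2))
    (hC : C ⊆ V) (hN : NoThree n C) :
    XX (Qfull n w) (fun _ => 1) V - XX (Qfull n w) (fun _ => 1) (V \ C) ≤
      1000 * (n : ℝ) * Real.sqrt n := by
  have h := DE_delta_aux n w hw (Qfull n w) (fun _ => 1) 1 (by norm_num)
    ?_ (fun _ _ => le_rfl) V C hC (hC.trans hV) hN
  · refine h.trans ?_
    have h1 : (0 : ℝ) ≤ (n : ℝ) * Real.sqrt n := by positivity
    nlinarith
  · intro q hq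
    unfold Qfull at hq
    rw [mem_filter, mem_product, mem_range, mem_range] at hq
    obtain ⟨⟨h1, h2⟩, h3, h4, h5, h6⟩ := hq
    exact ⟨h1, h2, h4, h5, h6⟩

theorem XX_Qd (s V : Finset ℕ) : XX (Qd s) (fun _ => 1) V = ((V ∩ s).card : ℝ) := by
  unfold XX
  rw [sum_const, nsmul_eq_mul, mul_one]
  have h : (Qd s).filter (fun q => q.1 ∈ V ∧ q.2 ∈ V) = (V ∩ s).image (fun z => (z, z)) := by
    ext q
    unfold Qd
    rw [mem_filter, mem_image, mem_image]
    constructor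
    · rintro ⟨⟨z, hz, rfl⟩, h1, -⟩
      exact ⟨z, mem_inter.2 ⟨h1, hz⟩, rfl⟩
    · rintro ⟨z, hz, rfl⟩
      rw [mem_inter] at hz
      exact ⟨⟨z, hz.2, rfl⟩, hz.1, hz.1⟩
  rw [h, card_image_of_injective]
  intro a b hab
  exact (Prod.mk.inj hab).1

theorem delta_line (n a b : ℕ) (hab : a ≠ b) (V C s : Finset ℕ) (hV : V ⊆ range (n ^ 2))
    (hC : C ⊆ V) (hN : NoThree n C) (hs : s ⊆ gline n a b) :
    XX (Qd s) (fun _ => 1) V - XX (Qd s) (fun _ => 1) (V \ C) ≤ 2 := by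
  rw [XX_Qd, XX_Qd]
  have h1 : V ∩ s = ((V \ C) ∩ s) ∪ (C ∩ s) := by
    ext x
    simp only [mem_inter, mem_union, mem_sdiff]
    constructor
    · rintro ⟨h1, h2⟩
      by_cases hx : x ∈ C
      · exact Or.inr ⟨hx, h2⟩
      · exact Or.inl ⟨⟨h1, hx⟩, h2⟩
    · rintro (⟨⟨h1, -⟩, h2⟩ | ⟨h1, h2⟩)
      · exact ⟨h1, h2⟩
      · exact ⟨hC h1, h2⟩
  have h2 : (V ∩ s).card ≤ ((V \ C) ∩ s).card + (C ∩ s).card := by
    rw [h1]
    exact card_union_le _ _
  have h3 : (C ∩ s).card ≤ 2 := by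
    by_contra h
    push Not at h
    obtain ⟨x, y, z, hx, hy, hz, hxy, hxz, hyz⟩ := two_lt_card_iff.1 h
    rw [mem_inter] at hx hy hz
    have e1 := (mem_gline.1 (hs hx.2)).2
    have e2 := (mem_gline.1 (hs hy.2)).2
    have e3 := (mem_gline.1 (hs hz.2)).2
    exact hN x hx.1 y hy.1 z hz.1 hxy hyz hxz (((line_eq hab hxy e1 e2).1 z).2 e3)
  have h4 : ((V ∩ s).card : ℝ) ≤ (((V \ C) ∩ s).card : ℝ) + ((C ∩ s).card : ℝ) := by
    exact_mod_cast h2
  have h5 : ((C ∩ s).card : ℝ) ≤ 2 := by exact_mod_cast h3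
  linarith

theorem Qfull_init (n w : ℕ) (hn : 3 ≤ n) (hw : w < n ^ 2) :
    XX (Qfull n w) (fun _ => 1) (range (n ^ 2)) ≤ 64 * (n : ℝ) ^ 2 * Real.log n := by
  unfold XX
  rw [sum_const, nsmul_eq_mul, mul_one]
  have h1 : (Qfull n w).filter (fun q => q.1 ∈ range (n ^ 2) ∧ q.2 ∈ range (n ^ 2)) ⊆
      ((range (n ^ 2)).filter (fun z => z ≠ w)).biUnion (fun u =>
        (gline n w u).image (fun z => (u, z))) := by
    intro q hq
    unfold Qfull at hq
    rw [mem_filter, mem_filter, mem_product] at hq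
    obtain ⟨⟨⟨h1, h2⟩, h3, h4, h5, h6⟩, -⟩ := hq
    rw [mem_biUnion]
    exact ⟨q.1, mem_filter.2 ⟨h1, h4⟩, mem_image.2 ⟨q.2, mem_gline.2 ⟨mem_range.1 h2, h6⟩, rfl⟩⟩
  have h2 : ((((Qfull n w).filter
      (fun q => q.1 ∈ range (n ^ 2) ∧ q.2 ∈ range (n ^ 2))).card : ℕ) : ℝ) ≤
      ∑ u ∈ (range (n ^ 2)).filter (fun z => z ≠ w), ((gline n w u).card : ℝ) := by
    have h3 := (card_le_card h1).trans (card_biUnion_le.trans (sum_le_sum
      (fun u _ => card_image_le (s := gline n w u) (f := fun z => (u, z)))))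
    exact_mod_cast h3
  refine h2.trans ?_
  have h3 : ∑ u ∈ (range (n ^ 2)).filter (fun z => z ≠ w), ((gline n w u).card : ℝ) ≤
      ∑ u ∈ (range (n ^ 2)).filter (fun z => z ≠ w), 2 * n * ((1 : ℝ) / pd n w u) := by
    apply sum_le_sum
    intro u hu
    rw [mem_filter] at hu
    have := card_gline n w u (Ne.symm hu.2) hw (mem_range.1 hu.1)
    calc ((gline n w u).card : ℝ) ≤ (2 * n / pd n w u) := by linarith
      _ = 2 * n * ((1 : ℝ) / pd n w u) := by ring
  rw [← mul_sum] at h3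
  have h4 := sum_inv_pd n w (by omega) hw
  have hn0 : (0 : ℝ) ≤ n := Nat.cast_nonneg n
  have hlog : 1 ≤ Real.log n := by
    rw [Real.le_log_iff_exp_le (by positivity)]
    have h5 := Real.exp_one_lt_d9
    have h6 : (3 : ℝ) ≤ n := by exact_mod_cast hn
    linarith
  calc _ ≤ _ := h3
    _ ≤ 2 * n * (16 * n * (1 + Real.log n)) := mul_le_mul_of_nonneg_left h4 (by positivity)
    _ ≤ 2 * n * (16 * n * (Real.log n + Real.log n)) := by gcongr
    _ = 64 * (n : ℝ) ^ 2 * Real.log n := by ring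

/-- triples of the leftover -/
theorem triples (n w : ℕ) (V : Finset ℕ) (hV : V ⊆ range (n ^ 2)) (hw : w ∈ V)
    (T : Finset (Finset ℕ)) (hT : ∀ e ∈ T, ∃ a b c, a ≠ b ∧ b ≠ c ∧ a ≠ c ∧ e = {a, b, c} ∧
      det3 n a b c = 0) :
    ((T.filter (fun e => w ∈ e ∧ e ⊆ V)).card : ℝ) ≤ XX (Qfull n w) (fun _ => 1) V := by
  unfold XX
  rw [sum_const, nsmul_eq_mul, mul_one]
  have h : T.filter (fun e => w ∈ e ∧ e ⊆ V) ⊆
      ((Qfull n w).filter (fun q => q.1 ∈ V ∧ q.2 ∈ V)).image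
        (fun q => ({w, q.1, q.2} : Finset ℕ)) := by
    intro e he
    rw [mem_filter] at he
    obtain ⟨heT, hwe, heV⟩ := he
    -- the two other points
    have key : ∃ x y, x ≠ w ∧ y ≠ w ∧ x ≠ y ∧ e = {w, x, y} ∧ det3 n w x y = 0 := by
      obtain ⟨a, b, c, hab, hbc, hac, rfl, hdet⟩ := hT e heT
      simp only [mem_insert, mem_singleton] at hwe
      rcases hwe with rfl | rfl | rfl
      · exact ⟨b, c, hab.symm, hac.symm, hbc, rfl, hdet⟩
      · refine ⟨a, c, hab, hbc.symm, hac, ?_, ?_⟩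
        · ext t; simp only [mem_insert, mem_singleton]; tauto
        · rw [DE_perm2, hdet, neg_zero]
      · refine ⟨a, b, hac, hbc, hab, ?_, ?_⟩
        · ext t; simp only [mem_insert, mem_singleton]; tauto
        · rw [DE_perm4, hdet]
    obtain ⟨x, y, hx, hy, hxy, rfl, hdet⟩ := key
    have hxV : x ∈ V := heV (by simp)
    have hyV : y ∈ V := heV (by simp)
    rw [mem_image]
    rcases Nat.lt_or_gt_of_ne hxy with hlt | hlt
    · refine ⟨(x, y), ?_, rfl⟩
      rw [mem_filter]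
      unfold Qfull
      rw [mem_filter, mem_product]
      exact ⟨⟨⟨hV hxV, hV hyV⟩, hlt, hx, hy, hdet⟩, hxV, hyV⟩
    · refine ⟨(y, x), ?_, ?_⟩
      · rw [mem_filter]
        unfold Qfull
        rw [mem_filter, mem_product]
        exact ⟨⟨⟨hV hyV, hV hxV⟩, hlt, hy, hx, by rw [DE_perm1, hdet, neg_zero]⟩, hyV, hxV⟩
      · ext t; simp only [mem_insert, mem_singleton]; tauto
  have h2 := (card_le_card h).trans card_image_le
  exact_mod_cast h2

end

end GPG
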